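import Pool.Agent.Helper86.NB.St2

/-!
# Project NB, module LNR: linear groups
-/

set_option autoImplicit false

namespace Pool.Agent.Helper42.NB

open Filter Topology Pool.Agent.Helper86.NB Pool.Agent.Helper86.ML Pool.Agent.Helper67.Cour

theorem hLNR (h1 : StMAT) (h2 : StNLH) (h3 : StHYP) (_ : StEXT) (_ : StMTB) (h6 : StFQU)
    (h7 : StFST) : StLNR := by
  intro hMET G K _ _ _ H _ n φ hsol hker
  have hfg : Group.FG H := inferInstance
  have hfq : Group.FG (H ⧸ φ.ker) := inferInstance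
  have hsq : Group.IsSolvable (H ⧸ φ.ker) := by
    have hs : Group.IsSolvable H := hsol
    infer_instance
  obtain ⟨H1, hfi, hnil⟩ := h1 (H ⧸ φ.ker) K n (QuotientGroup.kerLift φ) hsq
    (QuotientGroup.kerLift_injective φ)
  have hf1 : Group.FG H1 := inferInstance
  have hs1 : Stable H1 := (h3 hMET).1 H1 (h2 _ hnil)
  exact h7 G H (h6 H φ.ker hker (h7 (H ⧸ φ.ker) H1 hs1))

end Pool.Agent.Helper42.NB
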